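import Mathlib
import Pool.Agent.Shared.NP.Defs
import Pool.Agent.Lib.MP_b4992a_lc.Defs
import Pool.Agent.Lib.MP_b4992a_lc.Main
import Pool.Agent.Lib.MP_b4992a_lc.InNP

/-! MinMaxSwitches in the stacking model is NP-complete; one reduction with `K = 1` and at most
eight crossings on every edge serves the stacking model and the weaving model. -/

set_option autoImplicit false

open Pool.Agent.Lib.MP_b4992a_lc Pool.Agent.Shared.NP Pool.Agent.Shared.PolyTime

namespace Pool.Agent.Results.MP_b4992a_lc.FewCross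

/-- The kind of a cell: which optional segments it may hold. -/
def cls (φ : CNF3) (i j : ℕ) : ℕ := if 0 < i ∧ i ≤ nv φ then 0 else if i = 0 ∨ j = 0 then 1 else 2

/-- The optional type `b` is allowed in a cell of kind `s`. -/
def alw (s b : ℕ) : Bool := (s == 0 && (b == 30 || b == 31)) || (s == 1 && b == 32) ||
  (s == 2 && b == 33)

/-- The entry `p` of a crossing list can be present. -/
def okE (s0 s1 : ℕ) (p : ℕ × ℕ × ℕ) : Bool :=
  Nat.blt p.1 30 || (p.2.1 == 1 && alw s1 p.1) || (p.2.1 == 0 && alw s0 p.1)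

theorem tab8 : ∀ a < 34, ∀ s0 < 3, ∀ s1 < 3, ((cl a).filter (okE s0 s1)).length ≤ 8 := by
  decide +kernel

theorem tab_opt : ∀ a < 34, ∀ p ∈ cl a, 30 ≤ p.1 → p.2.2 = 1 ∧ (p.2.1 = 0 ∨ p.2.1 = 1) := by
  decide +kernel

theorem cls_lt (φ : CNF3) (i j : ℕ) : cls φ i j < 3 := by
  unfold cls
  split_ifs <;> omega

theorem alw_of_pres {φ : CNF3} {v : U} (h : pres φ v = true) (h30 : 30 ≤ v.2.2) :
    alw (cls φ v.1 v.2.1) v.2.2 = true := by
  simp only [pres, Bool.or_eq_true, Bool.and_eq_true, Nat.blt_eq, Nat.ble_eq, beq_iff_eq] at h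
  simp only [alw, cls, Bool.or_eq_true, Bool.and_eq_true, beq_iff_eq]
  split_ifs <;> omega

theorem few {φ : CNF3} {e : Seg} (he : e ∈ red φ) :
    Set.ncard {g : Seg | g ∈ red φ ∧ g ≠ e ∧ ∃ t : ℝ, CrossAt e g t} ≤ 8 := by
  classical
  obtain ⟨u, hu, rfl⟩ := mem_draw.1 he
  have hsub : {g : Seg | g ∈ red φ ∧ g ≠ seg u ∧ ∃ t : ℝ, CrossAt (seg u) g t} ⊆
      ((((cl u.2.2).filter (okE (cls φ (u.1 - 1) u.2.1) (cls φ u.1 u.2.1))).toFinset.image
        fun p => seg (u.1 + p.2.1 - 1, u.2.1 + p.2.2 - 1, p.1) : Finset Seg) : Set Seg) := by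
    rintro g ⟨hg, hne, t, ht⟩
    obtain ⟨v, hv, rfl⟩ := mem_draw.1 hg
    obtain ⟨⟨k, x, y, h1, h2, h3⟩, -⟩ :=
      (cross_iff (lt34 hu) (lt34 hv) (fun h => hne (by rw [h])) t).1 ht
    have hm := List.mem_of_getElem? h1
    refine Finset.mem_coe.2 (Finset.mem_image.2 ⟨(v.2.2, x, y),
      List.mem_toFinset.2 (List.mem_filter.2 ⟨hm, ?_⟩), ?_⟩)
    · simp only [okE, Bool.or_eq_true, Bool.and_eq_true, Nat.blt_eq, beq_iff_eq]
      by_cases h30 : v.2.2 < 30
      · exact Or.inl (Or.inl h30)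
      have ha := alw_of_pres (mem_units.1 hv).2.2.2 (not_lt.1 h30)
      obtain ⟨hy, hx | hx⟩ := tab_opt _ (lt34 hu) _ hm (not_lt.1 h30)
      · dsimp only at hx hy
        exact Or.inr ⟨hx, by rwa [show u.1 - 1 = v.1 by omega, show u.2.1 = v.2.1 by omega]⟩
      · dsimp only at hx hy
        exact Or.inl (Or.inr ⟨hx, by rwa [show u.1 = v.1 by omega, show u.2.1 = v.2.1 by omega]⟩)
    · dsimp only
      rw [show u.1 + x - 1 = v.1 by omega, show u.2.1 + y - 1 = v.2.1 by omega]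
  refine (Set.ncard_le_ncard hsub (Finset.finite_toSet _)).trans ?_
  rw [Set.ncard_coe_finset]
  exact Finset.card_image_le.trans ((List.toFinset_card_le _).trans
    (tab8 _ (lt34 hu) _ (cls_lt _ _ _) _ (cls_lt _ _ _)))

theorem result :
    InNP encInst (fun p : Inst => Stacking p.1.1 p.1.2) ∧
    ∀ L : List Bool → Prop, InNP id L →
      ∃ f : List Bool → Inst, PolyComputable id encInst f ∧ ∀ x : List Bool, (f x).1.2 = 1 ∧
        (∀ e ∈ (f x).1.1,
          Set.ncard {g : Seg | g ∈ (f x).1.1 ∧ g ≠ e ∧ ∃ t : ℝ, CrossAt e g t} ≤ 8) ∧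
        (L x ↔ Stacking (f x).1.1 (f x).1.2) ∧ (L x ↔ Weaving (f x).1.1 (f x).1.2) := by
  refine ⟨stacking_inNP, fun L hL => ?_⟩
  obtain ⟨F, hF, hs⟩ := cookLevin id L hL
  refine ⟨fun x => ⟨(red (F ⟨x⟩), 1), red_valid _⟩,
    (PF_red.comp hF).tm2 id encInst _ Raw.mk (fun _ => rfl) (fun _ => rfl),
    fun x => ⟨rfl, fun _ he => few he, ⟨fun h => complete _ ((hs x).1 h),
      fun h => (hs x).2 (sound _ h.weaving)⟩, fun h => (complete _ ((hs x).1 h)).weaving,
      fun h => (hs x).2 (sound _ h)⟩⟩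

end Pool.Agent.Results.MP_b4992a_lc.FewCross
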